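import Pool.Agent.Helper39.DL.Goals

/-!
# Project DL, packet SL: the volume of a slab inside a ball
-/

namespace Pool.Agent.Helper94.DL

open Module MeasureTheory Metric Pool.Agent.Helper39.DL
open scoped RealInnerProductSpace ENNReal

/-- Goal SL. -/
theorem slabVol (E : Type) [NormedAddCommGroup E] [InnerProductSpace ℝ E]
    [FiniteDimensional ℝ E] [MeasurableSpace E] [BorelSpace E] : SlabVol E := by
  intro H z C τ hdim hC hτ
  rcases Set.eq_empty_or_nonempty {p : E | ‖p - z‖ ≤ C ∧ ∃ h ∈ H, ‖p - h‖ ≤ τ} with he | hne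
  · rw [he]
    simp
  obtain ⟨p₀, -, h₀, hh₀, -⟩ := hne
  -- a unit vector orthogonal to the direction
  obtain ⟨e₀, he₀, he₀ne⟩ : ∃ e ∈ H.directionᗮ, e ≠ (0 : E) := by
    have h1 := Submodule.finrank_add_finrank_orthogonal H.direction
    have h2 : 0 < finrank ℝ H.directionᗮ := by omega
    have h3 : H.directionᗮ ≠ ⊥ := by
      intro h
      rw [h, finrank_bot] at h2
      exact lt_irrefl _ h2
    exact Submodule.exists_mem_ne_zero_of_ne_bot h3
  set e : E := (‖e₀‖⁻¹ : ℝ) • e₀ with hedef
  have henorm : ‖e‖ = 1 := by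
    rw [hedef, norm_smul, norm_inv, norm_norm, inv_mul_cancel₀ (norm_ne_zero_iff.2 he₀ne)]
  have heH : ∀ v ∈ H.direction, ⟪e, v⟫ = (0 : ℝ) := by
    intro v hv
    rw [hedef, inner_smul_left]
    have := (Submodule.mem_orthogonal' H.direction e₀).1 he₀ v hv
    rw [this, mul_zero]
  have hconst : ∀ h ∈ H, ⟪e, h⟫ = (⟪e, h₀⟫ : ℝ) := by
    intro h hh
    have h1 : h - h₀ ∈ H.direction := AffineSubspace.vsub_mem_direction hh hh₀
    have h2 := heH _ h1
    rw [inner_sub_right] at h2
    linarith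
  -- the orthonormal basis
  have hd : 0 < finrank ℝ E := by omega
  set i₀ : Fin (finrank ℝ E) := ⟨0, hd⟩ with hi₀
  have hon : Orthonormal ℝ (({i₀} : Set (Fin (finrank ℝ E))).domRestrict fun _ => e) := by
    constructor
    · intro i
      exact henorm
    · intro i j hij
      exact absurd (Subsingleton.elim i j) hij
  obtain ⟨b, hb⟩ := hon.exists_orthonormalBasis_extension_of_card_eq (by simp)
  have hb0 : b i₀ = e := hb i₀ rfl
  -- the map to the coordinates
  have hmp : MeasurePreserving (fun p : E => (WithLp.ofLp (b.repr p) : Fin (finrank ℝ E) → ℝ)) :=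
    (PiLp.volume_preserving_ofLp (Fin (finrank ℝ E))).comp b.measurePreserving_repr
  set lo : Fin (finrank ℝ E) → ℝ := fun i => if i = i₀ then ⟪e, h₀⟫ - τ else ⟪b i, z⟫ - C
  set hi : Fin (finrank ℝ E) → ℝ := fun i => if i = i₀ then ⟪e, h₀⟫ + τ else ⟪b i, z⟫ + C
  have hsub : {p : E | ‖p - z‖ ≤ C ∧ ∃ h ∈ H, ‖p - h‖ ≤ τ} ⊆
      (fun p : E => (WithLp.ofLp (b.repr p) : Fin (finrank ℝ E) → ℝ)) ⁻¹' Set.Icc lo hi := by
    rintro p ⟨hpz, h, hh, hph⟩
    have key : ∀ i, i₀ ≠ i → |⟪b i, p⟫ - ⟪b i, z⟫| ≤ C := by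
      intro i _
      rw [← inner_sub_right]
      refine (abs_real_inner_le_norm _ _).trans ?_
      rw [b.orthonormal.1 i, one_mul]
      exact hpz
    have key0 : |⟪e, p⟫ - ⟪e, h₀⟫| ≤ τ := by
      rw [← hconst h hh, ← inner_sub_right]
      refine (abs_real_inner_le_norm _ _).trans ?_
      rw [henorm, one_mul]
      exact hph
    constructor
    · intro i
      show lo i ≤ (b.repr p) i
      rw [b.repr_apply_apply]
      by_cases hi' : i = i₀
      · simp only [lo, if_pos hi']
        rw [hi', hb0]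
        linarith [(abs_le.1 key0).1]
      · simp only [lo, if_neg hi']
        linarith [(abs_le.1 (key i (Ne.symm hi'))).1]
    · intro i
      show (b.repr p) i ≤ hi i
      rw [b.repr_apply_apply]
      by_cases hi' : i = i₀
      · simp only [hi, if_pos hi']
        rw [hi', hb0]
        linarith [(abs_le.1 key0).2]
      · simp only [hi, if_neg hi']
        linarith [(abs_le.1 (key i (Ne.symm hi'))).2]
  refine (measure_mono hsub).trans ?_
  rw [hmp.measure_preimage measurableSet_Icc.nullMeasurableSet, Real.volume_Icc_pi,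
    ← Finset.mul_prod_erase Finset.univ _ (Finset.mem_univ i₀)]
  have h1 : ENNReal.ofReal (hi i₀ - lo i₀) = ENNReal.ofReal (2 * τ) := by
    simp only [hi, lo, if_pos rfl]
    congr 1
    ring
  have h2 : ∏ i ∈ Finset.univ.erase i₀, ENNReal.ofReal (hi i - lo i) =
      ENNReal.ofReal ((2 * C) ^ (finrank ℝ E - 1)) := by
    rw [Finset.prod_congr rfl (g := fun _ => ENNReal.ofReal (2 * C))]
    · rw [Finset.prod_const, Finset.card_erase_of_mem (Finset.mem_univ _), Finset.card_univ,
        Fintype.card_fin, ENNReal.ofReal_pow (by linarith)]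
    · intro i hi'
      have hne := Finset.ne_of_mem_erase hi'
      simp only [hi, lo, if_neg hne]
      congr 1
      ring
  rw [h1, h2, ← ENNReal.ofReal_mul (by linarith)]

end Pool.Agent.Helper94.DL
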